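import Pool.Agent.H.MP_720825_lc.Mod
import Pool.Agent.Lib.helper22.H10f

namespace Pool.Agent.H.MP_720825_lc

open scoped commutatorElement
open Pool.Agent.Lib.H10 Function Sum
open FreeGroup hiding map_mul map_one map_inv

abbrev F := FreeGroup ℕ

inductive C (Bs : List F) : F → Prop
  | var j : C Bs (of j)
  | sub B σ : B ∈ Bs → (∀ j, C Bs (σ j)) → C Bs (lift σ B)

def La {G : Type} [Group G] (x : G) (w : Fin 4 → G × G) (s t u : G) (i : Fin 4) : G :=
  (K x (update w i (s, t)) * K x (update w i (s, u)))⁻¹ * K x (update w i (s, t * u))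
def Ls {G : Type} [Group G] (x : G) (w : Fin 4 → G × G) (s t : G) (i : Fin 4) : G := K x (update w i (t, s)) * K x (update w i (s, t))

theorem map_K' {G H : Type} [Group G] [Group H] (f : G →* H) (x : G) (w i p) :
    f (K x (update w i p)) = K (f x) (update (fun i => (w i).map f f) i (p.map f f)) := by
  rw [map_K]
  exact congrArg _ (comp_update (Prod.map f f) w i p)

def w0 (i : Fin 4) : F × F := (of (2 * i + 1), of (2 * i + 2))
def laws : List F := (List.finRange 4).flatMap fun i => [La (of 0) w0 (of 9) (of 10) (of 11) i, Ls (of 0) w0 (of 9) (of 10) i]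
def ops : List F := [of 0 * of 1, of 1 * of 0 * (of 1)⁻¹, (of 1)⁻¹ * of 0 * of 1] ++ laws ++ laws.map (·⁻¹)
def tg : F := K (of 0) fun _ => (of 0, of 1)
def pm (m : ℤ) : F × F := if 0 ≤ m then (of 0, of 1 ^ m.toNat) else (of 1 ^ (-m).toNat, of 0)

variable {Φ : F}

theorem two (B : F) (hB : B ∈ ops) {x y : F} (hx : C (Φ :: ops) x) (hy : C (Φ :: ops) y) :
    C (Φ :: ops) (lift (fun j => if j = 0 then x else y) B) := .sub _ _ (.tail _ hB) fun j => by split_ifs <;> assumption

theorem C.mul {x y : F} (hx : C (Φ :: ops) x) (hy : C (Φ :: ops) y) : C (Φ :: ops) (x * y) := by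
  have := two (of 0 * of 1) (by simp [ops]) hx hy
  simpa using this

theorem C.conj (g : F) : ∀ {x : F}, C (Φ :: ops) x → C (Φ :: ops) (g * x * g⁻¹) := by
  induction g using FreeGroup.induction_on with
  | C1 => simp
  | of j => exact fun h => by have := two (of 1 * of 0 * (of 1)⁻¹) (by simp [ops]) h (.var j); simpa using this
  | inv_of j => exact fun h => by have := two ((of 1)⁻¹ * of 0 * of 1) (by simp [ops]) h (.var j); simpa using this
  | mul a b i j => exact fun h => by simpa [mul_assoc] using i (j h)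

def Nn (Φ : F) : Subgroup F where
  carrier := {g | ∀ w, C (Φ :: ops) w → C (Φ :: ops) (w * g) ∧ C (Φ :: ops) (w * g⁻¹)}
  mul_mem' a b w h := by simpa [mul_assoc] using And.intro (b _ (a w h).1).1 (a _ (b w h).2).2
  one_mem' w h := by simpa using h
  inv_mem' a w h := by simpa using (a w h).symm

instance : (Nn Φ).Normal := ⟨fun g a h w k => by
  simpa [mul_assoc] using (a _ (C.conj h⁻¹ k)).imp (C.conj h) (C.conj h)⟩

theorem law {B : F} (hB : B ∈ laws) (σ) (h : ∀ j, C (Φ :: ops) (σ j)) : lift σ B ∈ Nn Φ ∧ C (Φ :: ops) 1 := by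
  have a : C (Φ :: ops) (lift σ B) := .sub _ _ (by simp [ops, hB]) h
  have b : C (Φ :: ops) (lift σ B)⁻¹ := map_inv (lift σ) B ▸ .sub _ _ (by simp [ops, hB]) h
  exact ⟨fun w k => ⟨k.mul a, k.mul b⟩, by simpa using a.mul b⟩

theorem mem_laws (i) : La (of 0) w0 (of 9) (of 10) (of 11) i ∈ laws ∧ Ls (of 0) w0 (of 9) (of 10) i ∈ laws :=
  ⟨List.mem_flatMap.2 ⟨i, List.mem_finRange i, .head _⟩, List.mem_flatMap.2 ⟨i, List.mem_finRange i, .tail _ (.head _)⟩⟩

theorem C.pow (n : ℕ) : C (Φ :: ops) (of 1 ^ n) := by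
  induction n with
  | zero => exact (law (mem_laws 0).1 of .var).2
  | succ n ih => exact pow_succ (of 1 : F) n ▸ ih.mul (.var 1)

theorem C.pm (m : ℤ) : C (Φ :: ops) (pm m).1 ∧ C (Φ :: ops) (pm m).2 := by
  unfold MP_720825_lc.pm
  split_ifs
  exacts [⟨.var 0, .pow _⟩, ⟨.pow _, .var 0⟩]

theorem step (w : Fin 4 → F × F) (hw : ∀ i, C (Φ :: ops) (w i).1 ∧ C (Φ :: ops) (w i).2) (i m) :
    ((K (of 0) (update w i (pm m)) : F) : F ⧸ Nn Φ) = (K (of 0) (update w i (pm 1)) : F) ^ m := by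
  have h : ∀ n : ℕ, La (of 0) w (of 0) (of 1 ^ n) (of 1) i ∈ Nn Φ ∧ Ls (of 0) w (of 0) (of 1 ^ n) i ∈ Nn Φ := fun n => by
    let σ : ℕ → F := fun j => [of 0, (w 0).1, (w 0).2, (w 1).1, (w 1).2, (w 2).1, (w 2).2, (w 3).1, (w 3).2, of 0, of 1 ^ n].getD j (of 1)
    have hσ : ∀ j, C (Φ :: ops) (σ j) := fun j => by
      rcases j with _ | _ | _ | _ | _ | _ | _ | _ | _ | _ | _ | _
      all_goals first | exact .var _ | exact (hw _).1 | exact (hw _).2 | exact .pow _
    have e : (fun i => (w0 i).map (lift σ) (lift σ)) = w := by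
      ext1 i
      fin_cases i <;> simp [w0, σ]
    constructor
    · convert (law (mem_laws i).1 σ hσ).1
      simp only [La, map_K', e, map_mul, map_inv, Prod.map_apply, lift_apply_of]
      rfl
    · convert (law (mem_laws i).2 σ hσ).1
      simp only [Ls, map_K', e, map_mul, Prod.map_apply, lift_apply_of]
      rfl
  have h1 : ∀ n : ℕ, ((K (of 0) (update w i (of 0, of 1 ^ n)) : F) : F ⧸ Nn Φ) = (K (of 0) (update w i (of 0, of 1)) : F) ^ n := fun n => by
    induction n with
    | zero =>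
      have := QuotientGroup.eq.2 (h 0).1
      simpa using this
    | succ n ih => rw [pow_succ, ← QuotientGroup.eq.2 (h n).1, QuotientGroup.mk_mul, ih, pow_succ]
  rw [show pm 1 = (of 0, of 1) by simp [pm], pm]
  split_ifs with k
  · rw [h1, ← zpow_natCast, Int.toNat_of_nonneg k]
  · rw [eq_inv_of_mul_eq_one_left ((QuotientGroup.mk_mul ..).symm.trans ((QuotientGroup.eq_one_iff _).2 (h _).2)), h1, ← zpow_natCast, Int.toNat_of_nonneg (by omega), zpow_neg, inv_inv]

theorem four (i j k l : ℤ) : ((K (of 0) ![pm i, pm j, pm k, pm l] : F) : F ⧸ Nn Φ) = (tg : F ⧸ Nn Φ) ^ (i * j * k * l) := by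
  have h := fun (a b c d : ℤ) => step (Φ := Φ) ![pm a, pm b, pm c, pm d] fun i => by fin_cases i <;> exact C.pm _
  have h0 := h 1 j k l 0 i
  have h1 := h 1 1 k l 1 j
  have h2 := h 1 1 1 l 2 k
  have h3 := h 1 1 1 1 3 l
  have e : ∀ (a b c d x : F × F), update ![a, b, c, d] 0 x = ![x, b, c, d] ∧ update ![a, b, c, d] 1 x = ![a, x, c, d] ∧
      update ![a, b, c, d] 2 x = ![a, b, x, d] ∧ update ![a, b, c, d] 3 x = ![a, b, c, x] := fun a b c d x => by
    refine ⟨?_, ?_, ?_, ?_⟩ <;> ext1 i <;> fin_cases i <;> rfl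
  simp only [e] at h0 h1 h2 h3
  rw [h0, h1, h2, h3, ← zpow_mul, ← zpow_mul, ← zpow_mul, show tg = K (of 0) ![pm 1, pm 1, pm 1, pm 1] by simp [tg, K, pm]]
  congr 1
  ring

variable {W : Type}

def D4 (pr : W → F × F) : Submodule ℤ ((W → ℤ) → ℤ) where
  carrier := {q | ∃ Φ : F, ∀ (H : Type) [Group H] (f : F →* H) (z : H) (d : W → ℤ) (c : ℤ),
    (∀ i j k l, f (K (of 0) ![pr i, pr j, pr k, pr l]) = z ^ (d i * d j * d k * d l * c)) → f Φ = z ^ (q d * c)}
  add_mem' := fun ⟨x, a⟩ ⟨y, b⟩ => ⟨x * y, fun H _ f z d c h => by rw [map_mul, a H f z d c h, b H f z d c h, ← zpow_add, Pi.add_apply, add_mul]⟩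
  zero_mem' := ⟨1, by simp⟩
  smul_mem' := fun k _ ⟨x, a⟩ => ⟨x ^ k, fun H _ f z d c h => by rw [map_zpow, a H f z d c h, ← zpow_mul, Pi.smul_apply, smul_eq_mul]; congr 1; ring⟩

def P (o : W) (e : Bool × List W × List W) (d : W → ℤ) : ℤ := cond e.1 (e.2.1.map d).sum (d o) * (e.2.1.map d).sum - (e.2.2.map d).sum * d o

theorem quart (pr : W → F × F) (o : W) (E : List (Bool × List W × List W)) :
    (fun d => d o * d o * (d o * d o) + 2 * (E.map fun e => P o e d * P o e d).sum) ∈ D4 pr := by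
  let D1 := Submodule.span ℤ (Set.range fun (i : W) (d : W → ℤ) => d i)
  have h : D1 * D1 * (D1 * D1) ≤ D4 pr := by
    rw [← mul_assoc, Submodule.span_mul_span, Submodule.span_mul_span, Submodule.span_mul_span, Submodule.span_le]
    rintro _ ⟨_, ⟨_, ⟨_, ⟨i, rfl⟩, _, ⟨j, rfl⟩, rfl⟩, _, ⟨k, rfl⟩, rfl⟩, _, ⟨l, rfl⟩, rfl⟩
    exact ⟨_, fun H _ f z d c h => h i j k l⟩
  have v : ∀ i, (fun d : W → ℤ => d i) ∈ D1 := fun i => Submodule.subset_span ⟨i, rfl⟩
  have s : ∀ l : List W, (fun d : W → ℤ => (l.map d).sum) ∈ D1 := fun l => by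
    induction l with
    | nil => exact D1.zero_mem
    | cons a l ih => exact D1.add_mem (v a) ih
  have p : ∀ e, P o e ∈ D1 * D1 := fun ⟨b, l, r⟩ => by
    cases b
    exacts [sub_mem (Submodule.mul_mem_mul (v o) (s l)) (Submodule.mul_mem_mul (s r) (v o)),
      sub_mem (Submodule.mul_mem_mul (s l) (s l)) (Submodule.mul_mem_mul (s r) (v o))]
  refine add_mem (h (Submodule.mul_mem_mul (Submodule.mul_mem_mul (v o) (v o)) (Submodule.mul_mem_mul (v o) (v o))))
    ((D4 pr).smul_mem 2 (x := fun d => (E.map fun e => P o e d * P o e d).sum) ?_)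
  induction E with
  | nil => exact zero_mem _
  | cons e E ih => exact add_mem (h (Submodule.mul_mem_mul (p e) (p e))) ih

theorem sound (hΦ : ∀ (ρ : F →* Rˣ) (z : Rˣ), (∀ x w, ρ (K x w) = z ^ (det (w 0) * det (w 1) * det (w 2) * det (w 3) * (ea x).toAdd)) →
    ∀ σ : ℕ → F, 0 ≤ (ea (σ 0)).toAdd → ea (lift σ Φ) = 1 ∧ eb (lift σ Φ) = 1 ∧ ∃ k : ℤ, 0 ≤ k ∧ k ≠ 1 ∧ ρ (lift σ Φ) = z ^ k) :
    ¬ C (Φ :: ops) tg := by
  obtain ⟨ρ, z, inj, cm, hK⟩ := model
  have ab : ∀ (f : F →* Multiplicative ℤ) x w, f (K x w) = 1 := fun f x w => by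
    rw [K, map_commutatorElement, commutatorElement_eq_one_iff_mul_comm, mul_comm]
  have hl : ∀ B ∈ laws, ∀ σ, ea (lift σ B) = 1 ∧ eb (lift σ B) = 1 ∧ ρ (lift σ B) = 1 := by
    simp only [laws, List.mem_flatMap, List.mem_cons, List.not_mem_nil, or_false]
    rintro _ ⟨i, -, rfl | rfl⟩ σ <;> simp only [La, Ls, map_mul, map_inv, map_K', ab, hK, ← zpow_add, ← zpow_neg, inv_one, mul_one, true_and] <;>
      refine (congrArg _ ?_).trans (zpow_zero z) <;> fin_cases i <;> simp [det] <;> ring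
  have : ∀ w, C (Φ :: ops) w → 0 ≤ (ea w).toAdd ∧ 0 ≤ (eb w).toAdd ∧
      ((ea w).toAdd + (eb w).toAdd = 0 → ∃ k : ℤ, 0 ≤ k ∧ k ≠ 1 ∧ ρ w = z ^ k) := fun w h => by
    induction h with
    | var j => by_cases h : j = 1 <;> simp [ea, eb, h]
    | sub B σ hB _ ih =>
      obtain ⟨a, b, c⟩ := ih 0
      simp only [ops, List.mem_cons, List.mem_append, List.mem_map, List.not_mem_nil, or_false] at hB
      rcases hB with rfl | ((rfl | rfl | rfl) | h) | ⟨B, h, rfl⟩
      · obtain ⟨d, e, f⟩ := hΦ ρ z hK σ a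
        simp [d, e, f]
      · obtain ⟨d, e, f⟩ := ih 1
        simp only [map_mul, lift_apply_of, toAdd_mul]
        refine ⟨by omega, by omega, fun h => ?_⟩
        obtain ⟨k, k1, k2, k3⟩ := c (by omega)
        obtain ⟨l, l1, l2, l3⟩ := f (by omega)
        exact ⟨k + l, by omega, by omega, by rw [k3, l3, zpow_add]⟩
      · simp only [map_mul, map_inv, lift_apply_of, mul_inv_cancel_comm]
        exact ⟨a, b, fun h => (c h).imp fun k ⟨k1, k2, k3⟩ => ⟨k1, k2, by rw [k3, ((cm _).zpow_right k).eq, mul_inv_cancel_right]⟩⟩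
      · simp only [map_mul, map_inv, lift_apply_of, inv_mul_cancel_comm]
        exact ⟨a, b, fun h => (c h).imp fun k ⟨k1, k2, k3⟩ => ⟨k1, k2, by rw [k3, mul_assoc, ← ((cm _).zpow_right k).eq, inv_mul_cancel_left]⟩⟩
      · simpa [hl B h σ] using ⟨0, by simp⟩
      · simpa [hl B h σ] using ⟨0, by simp⟩
  intro h
  obtain ⟨k, -, k2, k3⟩ := (this _ h).2.2 (by simp [tg, ab])
  exact k2 (inj _ _ (by simpa [tg, hK, det, ea, eb] using k3.symm))

theorem main : ∃ Φ : F, ¬ ComputablePred fun n : ℕ => C (lift (fun j => if j = 3 then of 2 ^ n else of j) Φ :: ops) tg := by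
  obtain ⟨N, E, hE⟩ := exists_sq
  let pr : Unit ⊕ Fin (N + 1) → F × F := Sum.elim (fun _ => (of 1, of 2)) fun v => if v = 0 then (of 1, of 3) else (of (2 * v + 2), of (2 * v + 3))
  obtain ⟨Φ, hΦ⟩ := quart pr (inl ()) E
  refine ⟨Φ, fun h => hE (cast (congrArg _ (funext fun n => ?_)) h)⟩
  set τ : F →* F := lift fun j => if j = 3 then of 2 ^ n else of j
  have hτ : ∀ j, τ (of j) = if j = 3 then of 2 ^ n else of j := fun j => lift_apply_of
  refine propext ⟨fun h => by_contra fun hs => sound (fun ρ z hK σ a => ?_) h, fun ⟨σ, h0, h⟩ => ?_⟩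
  · have ab : ∀ f : F →* Multiplicative ℤ, f (lift σ (τ Φ)) = 1 := fun f => by
      simpa using hΦ _ (f.comp ((lift σ).comp τ)) 1 0 0 fun _ _ _ _ => by
        rw [K, map_commutatorElement, commutatorElement_eq_one_iff_mul_comm.2 (mul_comm ..), one_zpow]
    let d := fun i => det ((pr i).map ((lift σ).comp τ) ((lift σ).comp τ))
    have p0 : ∀ x ∈ E.map fun e => P (inl ()) e d * P (inl ()) e d, 0 ≤ x := List.forall_mem_map.2 fun _ _ => mul_self_nonneg _
    have p := List.sum_nonneg p0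
    refine ⟨ab _, ab _, _, ?_, fun k => hs ?_, hΦ _ (ρ.comp ((lift σ).comp τ)) z d (ea (σ 0)).toAdd fun i j k l => ?_⟩
    · exact mul_nonneg (add_nonneg (mul_self_nonneg _) (by omega)) a
    · have k := Int.eq_one_of_mul_eq_one_right (add_nonneg (mul_self_nonneg _) (by omega)) k
      have k1 := mul_self_nonneg (d (inl ()) * d (inl ()))
      have k2 : d (inl ()) * d (inl ()) = 1 := Int.eq_one_of_mul_eq_one_right (mul_self_nonneg _) (b := d (inl ()) * d (inl ())) (by omega)
      have k3 : ∀ l : List _, (l.map (Sum.elim 1 fun v => d (inr v) * d (inl ()))).sum = (l.map d).sum * d (inl ()) := fun l => by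
        rw [← List.sum_map_mul_right]
        congr 2
        ext (_ | _) <;> simp [k2]
      refine ⟨fun v => d (inr v) * d (inl ()), ?_, fun e he => ?_⟩
      · have : d (inr 0) = n * d (inl ()) := by
          simp [d, pr, det, hτ]
          ring
        simp [this, mul_assoc, k2]
      · have := mul_self_eq_zero.1 (List.all_zero_of_le_zero_le_of_sum_eq_zero p0
          (show (E.map fun e => P (inl ()) e d * P (inl ()) e d).sum = 0 by omega) (List.mem_map_of_mem he))
        simp only [k3, P] at this ⊢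
        cases z : e.1 <;> simp only [z, cond] at this ⊢
        · linarith
        · linear_combination this + (e.2.1.map d).sum ^ 2 * k2
    · rw [MonoidHom.comp_apply, map_K, hK]
      simp [d, hτ]
  · let η : ℕ → F := fun j => if j ≤ 1 then of 0 else if j ≤ 3 then of 1 else
      if h : (j - 2) / 2 < N + 1 then if j % 2 = 0 then (pm (σ ⟨_, h⟩)).1 else (pm (σ ⟨_, h⟩)).2 else of 0
    have hη : ∀ j, C (τ Φ :: ops) (η j) := fun j => by
      simp only [η]
      split_ifs
      exacts [.var _, .var _, (C.pm _).1, (C.pm _).2, .var _]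
    have e : ∀ i, (pr i).map ((lift η).comp τ) ((lift η).comp τ) = pm (Sum.elim 1 σ i) := by
      rintro (_ | v)
      · simp [pr, hτ, η, pm]
      · by_cases z : v = 0
        · simp [pr, hτ, η, pm, z, h0]
        · have : v.1 ≠ 0 := by simpa using z
          have a : (2 * v.1 + 2 - 2) / 2 = v := by omega
          have b : (2 * v.1 + 3 - 2) / 2 = v := by omega
          simp only [pr, Sum.elim_inr, if_neg z, Prod.map, MonoidHom.comp_apply, hτ, η]
          rw [if_neg (by omega), if_neg (by omega)]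
          simp only [lift_apply_of, a, b, Fin.is_lt, dite_true, Fin.eta]
          rw [if_neg (by omega), if_neg (by omega), if_pos (by omega), if_neg (by omega), if_neg (by omega), if_neg (by omega)]
    have := hΦ _ ((QuotientGroup.mk' (Nn (τ Φ))).comp ((lift η).comp τ)) tg (Sum.elim 1 σ) 1 fun i j k l => by
      rw [MonoidHom.comp_apply, map_K, mul_one, ← four]
      refine congrArg QuotientGroup.mk (congrArg₂ K (by simp [hτ, η]) (funext fun x => ?_))
      fin_cases x <;> exact e _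
    beta_reduce at this
    rw [List.sum_eq_zero (by
      simp only [List.forall_mem_map, mul_self_eq_zero, P, sub_eq_zero]
      simpa using h)] at this
    simpa using (QuotientGroup.eq.1 (this.trans (by simp : _ = (tg : F ⧸ Nn (τ Φ)))) _ (.sub _ _ (.head _) hη)).1

end Pool.Agent.H.MP_720825_lc
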