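import Mathlib

namespace Pool.Agent.H.MP_720825_lc

open scoped commutatorElement

abbrev R := Matrix (Fin 10) (Fin 10) ℤ

def Fl (i : ℕ) : Submodule ℤ R where
  carrier := {M | ∀ r s : Fin 10, s.1 < r.1 + i → M r s = 0}
  add_mem' a b r s h := by simp [a r s h, b r s h]
  zero_mem' := by simp
  smul_mem' c _ a r s h := by simp [a r s h]

theorem Fl.mul {i j} {M N : R} (a : M ∈ Fl i) (b : N ∈ Fl j) : M * N ∈ Fl (i + j) := fun r s h =>
  Matrix.mul_apply.trans <| Finset.sum_eq_zero fun t _ => by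
    by_cases k : t.1 < r.1 + i
    · simp [a r t k]
    · simp [b t s (by omega)]

theorem Fl.mono {i j} (h : j ≤ i) {M : R} (a : M ∈ Fl i) : M ∈ Fl j := fun r s k => a r s (by omega)

theorem Fl.top {M : R} (a : M ∈ Fl 10) : M = 0 := Matrix.ext fun r s => a r s (by omega)

/-- unipotent units with inverse unipotent and leading term `u` in degree `i` -/
def Ld (g : Rˣ) (i : ℕ) (u : R) : Prop := g⁻¹.1 - 1 ∈ Fl 1 ∧ u ∈ Fl i ∧ g.1 - 1 - u ∈ Fl (i + 1)

theorem Ld.sub {g i u} (h : Ld g i u) : g.1 - 1 ∈ Fl i := by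
  simpa using (Fl i).add_mem (Fl.mono (Nat.le_succ i) h.2.2) h.2.1

theorem one_mul' {x y : R} (a : x - 1 ∈ Fl 1) (b : y - 1 ∈ Fl 1) : x * y - 1 ∈ Fl 1 := by
  convert (Fl 1).add_mem (Fl.mono (by omega) (Fl.mul a b)) ((Fl 1).add_mem a b) using 1
  noncomm_ring

theorem Ld.mul {g h u v} (a : Ld g 1 u) (b : Ld h 1 v) : Ld (g * h) 1 (u + v) := by
  refine ⟨by simpa using one_mul' b.1 a.1, (Fl 1).add_mem a.2.1 b.2.1, ?_⟩
  convert (Fl 2).add_mem (Fl.mul a.sub b.sub) ((Fl 2).add_mem a.2.2 b.2.2) using 1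
  simp only [Units.val_mul]
  noncomm_ring

theorem Ld.inv {g u} (a : Ld g 1 u) : Ld g⁻¹ 1 (-u) := by
  refine ⟨a.sub, (Fl 1).neg_mem a.2.1, ?_⟩
  convert (Fl 2).neg_mem ((Fl 2).add_mem (Fl.mul a.sub a.1) a.2.2) using 1
  simp only [sub_mul, mul_sub, Units.mul_inv]
  noncomm_ring

theorem Ld.comm {g h i j u v} (hi : 1 ≤ i) (hj : 1 ≤ j) (a : Ld g i u) (b : Ld h j v) : Ld ⁅g, h⁆ (i + j) (u * v - v * u) := by
  have c : u * v - v * u ∈ Fl (i + j) := (Fl _).sub_mem (Fl.mul a.2.1 b.2.1) (add_comm i j ▸ Fl.mul b.2.1 a.2.1)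
  have d : g.1 * h.1 - h.1 * g.1 - (u * v - v * u) ∈ Fl (i + j + 1) := by
    convert (Fl (i + j + 1)).sub_mem ((Fl _).add_mem (Fl.mono (by omega) (Fl.mul a.2.2 b.sub)) (Fl.mono (by omega) (Fl.mul a.2.1 b.2.2)))
      ((Fl _).add_mem (Fl.mono (by omega) (Fl.mul b.2.2 a.sub)) (Fl.mono (by omega) (Fl.mul b.2.1 a.2.2))) using 1
    noncomm_ring
  refine ⟨?_, c, ?_⟩
  · simpa [commutatorElement_def, mul_assoc] using one_mul' (Fl.mono hj b.sub) (one_mul' (Fl.mono hi a.sub) (one_mul' b.1 a.1))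
  · have e : g.1 * h.1 - h.1 * g.1 ∈ Fl (i + j) := by simpa using (Fl _).add_mem (Fl.mono (Nat.le_succ _) d) c
    convert (Fl _).add_mem (Fl.mul e (one_mul' a.1 b.1)) d using 1
    simp only [commutatorElement_def, Units.val_mul, mul_sub, sub_mul, mul_assoc, Units.mul_inv_cancel_left, Units.mul_inv]
    noncomm_ring

def hm (d : ℕ) (f : List ℤ) : R := Matrix.of fun r s => if s.1 = r.1 + d then f.getD r 0 else 0

theorem hm_mem (d f) : hm d f ∈ Fl d := fun r s h => if_neg (by omega)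

def A : R := hm 1 [1, 1, 0, 1, 0, 1, 0, 1, 0]
def B : R := hm 1 [0, 0, 1, 0, 1, 0, 1, 0, 1]
def O : R := hm 2 [0, 1, -1, 1, -1, 1, -1, 1]
def E : R := hm 9 [1]

def ad (X : R) : R := X * O - O * X

theorem calc1 : A * B - B * A = O ∧ ad (ad (ad (ad A))) = E ∧ ad (ad (ad (ad B))) = 0 := by
  refine ⟨by decide +kernel, ?_, ?_⟩
  · rw [show ad A = hm 3 [1, -2, 0, -2, 0, -2] by decide +kernel, show ad (hm 3 [1, -2, 0, -2, 0, -2]) = hm 5 [1, 4, 0, 4] by decide +kernel,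
      show ad (hm 5 [1, 4, 0, 4]) = hm 7 [1, -8] by decide +kernel]
    decide +kernel
  · rw [show ad B = hm 3 [0, 0, 2, 0, 2, 0, 2] by decide +kernel, show ad (hm 3 [0, 0, 2, 0, 2, 0, 2]) = hm 5 [0, 0, 4, 0, 4] by decide +kernel,
      show ad (hm 5 [0, 0, 4, 0, 4]) = hm 7 [0, 0, 8] by decide +kernel]
    decide +kernel

theorem exU {i} (hi : 1 ≤ i) {u : R} (h : u ∈ Fl i) : ∃ g : Rˣ, g.1 = 1 + u ∧ Ld g i u := by
  have : ∀ n, u ^ n ∈ Fl n := fun n => by
    induction n with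
    | zero => exact fun r s k => Matrix.one_apply_ne (by intro e; subst e; omega)
    | succ n ih => exact pow_succ u n ▸ Fl.mul ih (Fl.mono hi h)
  obtain ⟨g, hg⟩ := IsNilpotent.isUnit_one_add ⟨10, Fl.top (this 10)⟩
  refine ⟨g, hg, ?_, h, by simp [hg]⟩
  have e : g⁻¹.1 - 1 = -(u * g⁻¹.1) := by rw [← g.mul_inv, hg]; noncomm_ring
  rw [e]
  refine (Fl 1).neg_mem (Fl.mul (j := 0) (Fl.mono hi h) ?_)
  have : g⁻¹.1 = ∑ k ∈ Finset.range 10, (-u) ^ k := by
    rw [← mul_one g⁻¹.1, ← sub_zero 1, ← show (-u) ^ 10 = 0 by rw [Even.neg_pow (by decide), Fl.top (this 10)], ← mul_neg_geom_sum, sub_neg_eq_add, ← hg,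
      Units.inv_mul_cancel_left]
  rw [this]
  exact Submodule.sum_mem _ fun k _ => by
    rw [neg_pow]
    rcases neg_one_pow_eq_or R k with z | z <;> simpa [z] using Fl.mono (Nat.zero_le _) (‹∀ n, u ^ n ∈ Fl n› k)

def K {G : Type} [Group G] (x : G) (w : Fin 4 → G × G) : G :=
  ⁅⁅⁅⁅x, ⁅(w 0).1, (w 0).2⁆⁆, ⁅(w 1).1, (w 1).2⁆⁆, ⁅(w 2).1, (w 2).2⁆⁆, ⁅(w 3).1, (w 3).2⁆⁆

theorem map_K {G H : Type} [Group G] [Group H] (f : G →* H) (x : G) (w) : f (K x w) = K (f x) fun i => (w i).map f f := by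
  simp [K, map_commutatorElement]

def ea : FreeGroup ℕ →* Multiplicative ℤ := FreeGroup.lift fun j => .ofAdd (if j = 1 then 0 else 1)
def eb : FreeGroup ℕ →* Multiplicative ℤ := FreeGroup.lift fun j => .ofAdd (if j = 1 then 1 else 0)
def det (p : FreeGroup ℕ × FreeGroup ℕ) : ℤ := (ea p.1).toAdd * (eb p.2).toAdd - (eb p.1).toAdd * (ea p.2).toAdd

theorem model : ∃ (ρ : FreeGroup ℕ →* Rˣ) (z : Rˣ), (∀ k l : ℤ, z ^ k = z ^ l → k = l) ∧ (∀ w, Commute (ρ w) z) ∧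
    ∀ x w, ρ (K x w) = z ^ (det (w 0) * det (w 1) * det (w 2) * det (w 3) * (ea x).toAdd) := by
  obtain ⟨a, -, ha⟩ := exU le_rfl (u := A) (hm_mem 1 _)
  obtain ⟨b, -, hb⟩ := exU le_rfl (u := B) (hm_mem 1 _)
  obtain ⟨z, hz, -⟩ := exU (i := 9) (by omega) (u := E) (hm_mem 9 _)
  let ρ : FreeGroup ℕ →* Rˣ := FreeGroup.lift fun j => if j = 1 then b else a
  have h1 : ∀ w, Ld (ρ w) 1 ((ea w).toAdd • A + (eb w).toAdd • B) := fun w => by
    induction w using FreeGroup.induction_on with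
    | C1 => simp [Ld]
    | of j => by_cases h : j = 1 <;> simpa [ρ, ea, eb, h]
    | inv_of j ih => convert ih.inv using 1 <;> simp [add_comm]
    | mul x y i j => convert i.mul j using 1 <;> simp [add_smul, add_add_add_comm]
  have h2 : ∀ p : _ × _, Ld ⁅ρ p.1, ρ p.2⁆ 2 (det p • O) := fun p => by
    convert (h1 p.1).comm le_rfl le_rfl (h1 p.2) using 1
    simp only [← calc1.1, det, mul_add, add_mul, smul_mul_smul_comm]
    module
  have hE : E * E = 0 := Fl.top (Fl.mono (by omega) (Fl.mul (hm_mem 9 _) (hm_mem 9 _)))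
  have h4 : ∀ k : ℤ, (z ^ k).1 = 1 + k • E := fun k => by
    induction k with
    | zero => simp
    | succ k ih =>
      rw [zpow_add_one, Units.val_mul, ih, hz]
      simp [mul_add, add_mul, hE, add_smul, add_assoc, mul_assoc, add_comm]
    | pred k ih =>
      rw [zpow_sub_one, Units.val_mul, Units.mul_inv_eq_iff_eq_mul, ih, hz]
      simp [mul_add, add_mul, hE, sub_smul, sub_mul, mul_assoc, add_assoc]
  refine ⟨ρ, z, fun k l h => ?_, fun w => Units.ext ?_, fun x w => Units.ext ?_⟩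
  · simpa [h4, E, hm] using congrArg (fun g : Rˣ => g.1 0 9) h
  · have := (h1 w).sub
    have e1 := Fl.top (Fl.mul this (hm_mem 9 [1]))
    have e2 := Fl.top (Fl.mul (hm_mem 9 [1]) this)
    simp only [Units.val_mul, hz, mul_add, add_mul, mul_one, one_mul, E, sub_mul, mul_sub, sub_eq_zero] at e1 e2 ⊢
    rw [e1, e2]
  · have := Fl.top ((((((h1 x).comm le_rfl (by omega) (h2 (w 0))).comm (by omega) (by omega) (h2 (w 1))).comm (by omega) (by omega)
      (h2 (w 2))).comm (by omega) (by omega) (h2 (w 3))).2.2)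
    have e : ∀ (c d k : ℤ) X Y, (c • X + d • Y) * k • O - k • O * (c • X + d • Y) = (k * c) • ad X + (k * d) • ad Y := fun c d k X Y => by
      simp only [ad, mul_add, add_mul, smul_mul_smul_comm, mul_smul_comm, smul_mul_assoc]
      module
    simp only [e, calc1.2, sub_sub, sub_eq_zero, smul_zero, add_zero] at this
    rw [h4, map_K]
    refine this.trans ?_
    congr 2
    ring

end Pool.Agent.H.MP_720825_lc
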